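import Mathlib

set_option autoImplicit false

namespace Pool.Agent.Retired.MP_34bddf_lc.MaxNeIdeal

/-- `βℕ`: the ultrafilters on the positive integers, with Mathlib's Stone topology
(generated by the basic sets `{F | A ∈ F}`). -/
abbrev BetaN := Ultrafilter ℕ+

/-- The extension of addition: `A ∈ uadd F G` iff `{n | {m | n + m ∈ A} ∈ G} ∈ F`
(see `mem_uadd`). -/
def uadd (F G : BetaN) : BetaN := F.bind (fun n => G.map (fun m => n + m))

/-- The extension of multiplication: `A ∈ umul F G` iff `{n | {m | n * m ∈ A} ∈ G} ∈ F`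
(see `mem_umul`). -/
def umul (F G : BetaN) : BetaN := F.bind (fun n => G.map (fun m => n * m))

/-- `MAX`: the ultrafilters containing `nℕ` for every positive integer `n`. -/
def MAX : Set BetaN := {F | ∀ n : ℕ+, Set.range (fun k : ℕ+ => n * k) ∈ F}

/-- `Γ`: the closure of the set of additive idempotents. -/
def Gamma : Set BetaN := closure {F | uadd F F = F}

/-- The two-sided multiplicative ideal generated by `T`:
`T ∪ βℕ·T ∪ T·βℕ ∪ βℕ·T·βℕ`. -/
def mulIdealGen (T : Set BetaN) : Set BetaN :=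
  T ∪ {H | ∃ F, ∃ G ∈ T, H = umul F G} ∪ {H | ∃ G ∈ T, ∃ F, H = umul G F} ∪
    {H | ∃ F, ∃ G ∈ T, ∃ F', H = umul (umul F G) F'}

theorem mem_uadd (F G : BetaN) (A : Set ℕ+) :
    A ∈ uadd F G ↔ {n | {m | n + m ∈ A} ∈ G} ∈ F := by
  unfold uadd
  rw [← Ultrafilter.mem_coe]
  exact Filter.mem_bind'

theorem mem_umul (F G : BetaN) (A : Set ℕ+) :
    A ∈ umul F G ↔ {n | {m | n * m ∈ A} ∈ G} ∈ F := by
  unfold umul
  rw [← Ultrafilter.mem_coe]
  exact Filter.mem_bind'

/-- Schur ultrafilters: each member contains `a`, `b` and `a + b`. -/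
def Schur : Set BetaN := {F | ∀ A ∈ F, ∃ a b : ℕ+, a ∈ A ∧ b ∈ A ∧ a + b ∈ A}

theorem isClosed_schur : IsClosed Schur := by
  have : Schur = ⋂ A : {A : Set ℕ+ // ¬ ∃ a b : ℕ+, a ∈ A ∧ b ∈ A ∧ a + b ∈ A},
      {F : BetaN | (A.1)ᶜ ∈ F} := by
    ext F
    simp only [Schur, Set.mem_ofPred_eq, Set.mem_iInter, Ultrafilter.compl_mem_iff_notMem]
    constructor
    · intro h A hA
      exact A.2 (h _ hA)
    · intro h A hA
      by_contra hc
      exact h ⟨A, hc⟩ hA
  rw [this]
  exact isClosed_iInter (fun A => ultrafilter_isClosed_basic _)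

theorem gamma_subset : Gamma ⊆ Schur := by
  apply closure_minimal _ isClosed_schur
  intro F hF A hA
  have hF' : uadd F F = F := hF
  have h1 : A ∈ uadd F F := by rw [hF']; exact hA
  rw [mem_uadd] at h1
  obtain ⟨a, ha1, ha2⟩ := Ultrafilter.nonempty_of_mem (Filter.inter_mem h1 hA)
  obtain ⟨b, hb1, hb2⟩ := Ultrafilter.nonempty_of_mem (Filter.inter_mem ha1 hA)
  exact ⟨a, b, ha2, hb2, hb1⟩

theorem schur_left (F G : BetaN) (hG : G ∈ Schur) : umul F G ∈ Schur := by
  intro A hA
  rw [mem_umul] at hA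
  obtain ⟨n, hn⟩ := Ultrafilter.nonempty_of_mem hA
  obtain ⟨a, b, ha, hb, hab⟩ := hG _ hn
  refine ⟨n * a, n * b, ha, hb, ?_⟩
  rw [← mul_add]; exact hab

theorem schur_right (G F : BetaN) (hG : G ∈ Schur) : umul G F ∈ Schur := by
  intro A hA
  rw [mem_umul] at hA
  obtain ⟨a, b, ha, hb, hab⟩ := hG _ hA
  obtain ⟨m, ⟨h1, h2⟩, h3⟩ :=
    Ultrafilter.nonempty_of_mem (Filter.inter_mem (Filter.inter_mem ha hb) hab)
  refine ⟨a * m, b * m, h1, h2, ?_⟩
  rw [← add_mul]; exact h3

theorem ideal_subset : mulIdealGen Gamma ⊆ Schur := by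
  rintro H (((h | ⟨F, G, hG, rfl⟩) | ⟨G, hG, F, rfl⟩) | ⟨F, G, hG, F', rfl⟩)
  · exact gamma_subset h
  · exact schur_left _ _ (gamma_subset hG)
  · exact schur_right _ _ (gamma_subset hG)
  · exact schur_right _ _ (schur_left _ _ (gamma_subset hG))

def fac (k : ℕ) : ℕ+ := ⟨(k + 2).factorial, Nat.factorial_pos _⟩

theorem three_mul_le {i k : ℕ} (h : (i + 2).factorial < (k + 2).factorial) :
    3 * (i + 2).factorial ≤ (k + 2).factorial := by
  have hik : i + 2 < k + 2 := (Nat.factorial_lt (by omega)).mp h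
  have h1 : (i + 2 + 1).factorial ≤ (k + 2).factorial := Nat.factorial_le hik
  rw [Nat.factorial_succ] at h1
  exact le_trans (Nat.mul_le_mul_right _ (by omega)) h1

/-- There is an ultrafilter in `MAX` outside the closure of the multiplicative ideal
generated by `Γ`. -/
theorem result : ∃ F ∈ MAX, F ∉ closure (mulIdealGen Gamma) := by
  refine ⟨(Filter.hyperfilter ℕ).map fac, ?_, ?_⟩
  · intro n
    rw [Ultrafilter.mem_map]
    apply Filter.hyperfilter_le_cofinite
    rw [Nat.cofinite_eq_atTop]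
    filter_upwards [Filter.eventually_ge_atTop (n : ℕ)] with k hk
    have h1 : (n : ℕ) ∣ (k + 2).factorial := Nat.dvd_factorial n.pos (by omega)
    have h2 : n ∣ fac k := PNat.dvd_iff.mpr h1
    obtain ⟨c, hc⟩ := h2
    exact ⟨c, hc.symm⟩
  · intro h
    have h1 := closure_minimal ideal_subset isClosed_schur h
    obtain ⟨a, b, ⟨i, rfl⟩, ⟨j, rfl⟩, ⟨k, hk⟩⟩ := h1 (Set.range fac) (by
      rw [Ultrafilter.mem_map, Set.preimage_range]; exact Filter.univ_mem)
    have h2 : (k + 2).factorial = (i + 2).factorial + (j + 2).factorial := by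
      have := congrArg (fun x : ℕ+ => (x : ℕ)) hk
      simp only [PNat.add_coe] at this
      exact this
    have hi := Nat.factorial_pos (i + 2)
    have hj := Nat.factorial_pos (j + 2)
    have h3 := three_mul_le (i := i) (k := k) (by omega)
    have h4 := three_mul_le (i := j) (k := k) (by omega)
    omega

end Pool.Agent.Retired.MP_34bddf_lc.MaxNeIdeal
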